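import Pool.Agent.LE.StmtsI

/-! Squad LIR, row SRC: the local part and the source. -/

set_option autoImplicit false

open MeasureTheory ProbabilityTheory Function Filter Matrix

open scoped ENNReal BigOperators Topology NNReal ComplexOrder

noncomputable section

namespace Pool.Agent.LE.IR.H6

open Pool.Agent.Anderson hiding box mem_box card_box
open Pool.Agent.Loc Pool.Agent.Mob Pool.Agent.Helper54.Bal
  Pool.Agent.Helper96.EXP Pool.Agent.BED
open Pool.Agent.LE.MN Pool.Agent.LE.CL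

theorem norm_pow_sub {z : ℂ} (hz : ‖z‖ = 1) (n : ℕ) : ‖z ^ n - 1‖ ≤ n * ‖z - 1‖ := by
  induction n with
  | zero => simp
  | succ n ih =>
    have e : z ^ (n + 1) - 1 = z * (z ^ n - 1) + (z - 1) := by ring
    rw [e]
    refine (norm_add_le _ _).trans ?_
    rw [norm_mul, hz, one_mul]
    push_cast
    linarith

theorem norm_zpow_sub {z : ℂ} (hz : ‖z‖ = 1) (m : ℤ) : ‖z ^ m - 1‖ ≤ m.natAbs * ‖z - 1‖ := by
  have hz0 : z ≠ 0 := by
    intro h
    rw [h, norm_zero] at hz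
    exact zero_ne_one hz
  rcases Int.natAbs_eq m with h | h
  · have h1 := norm_pow_sub hz m.natAbs
    rw [← zpow_natCast, ← h] at h1
    exact h1
  · have h1 := norm_pow_sub hz m.natAbs
    have e : z ^ m - 1 = -(z ^ m * (z ^ m.natAbs - 1)) := by
      have h2 : z ^ m * z ^ m.natAbs = 1 := by
        rw [← zpow_natCast, ← zpow_add₀ hz0]
        have : m + (m.natAbs : ℤ) = 0 := by omega
        rw [this, zpow_zero]
      rw [mul_sub, h2, mul_one]
      ring
    rw [e, norm_neg, norm_mul, norm_zpow, hz, _root_.one_zpow, one_mul]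
    exact h1

theorem norm_prod_sub {ι : Type} (s : Finset ι) (z : ι → ℂ) (hz : ∀ i, ‖z i‖ = 1) :
    ‖∏ i ∈ s, z i - 1‖ ≤ ∑ i ∈ s, ‖z i - 1‖ := by
  classical
  induction s using Finset.induction_on with
  | empty => simp
  | insert a s ha ih =>
    rw [Finset.prod_insert ha, Finset.sum_insert ha]
    have e : z a * ∏ i ∈ s, z i - 1 = z a * (∏ i ∈ s, z i - 1) + (z a - 1) := by ring
    rw [e]
    refine (norm_add_le _ _).trans ?_
    rw [norm_mul, hz, one_mul]
    linarith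

theorem norm_exp_sub (θ : ℝ) :
    ‖Complex.exp (θ * Complex.I) - 1‖ = Real.sqrt (2 * (1 - Real.cos θ)) := by
  rw [Complex.norm_eq_sqrt_sq_add_sq]
  congr 1
  have h1 : (Complex.exp (θ * Complex.I) - 1).re = Real.cos θ - 1 := by
    rw [Complex.sub_re, Complex.exp_ofReal_mul_I_re, Complex.one_re]
  have h2 : (Complex.exp (θ * Complex.I) - 1).im = Real.sin θ := by
    rw [Complex.sub_im, Complex.exp_ofReal_mul_I_im, Complex.one_im, sub_zero]
  rw [h1, h2]
  nlinarith [Real.sin_sq_add_cos_sq θ]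

section std

variable {M : ℕ} [NeZero M]

theorem norm_std (a : ZMod M) : ‖ZMod.stdAddChar a‖ = 1 := by
  rw [ZMod.stdAddChar_apply]
  exact Circle.norm_coe _

theorem norm_std_sub (a : ZMod M) : ‖ZMod.stdAddChar a - 1‖ =
    Real.sqrt (2 * (1 - Real.cos (2 * Real.pi * (a.valMinAbs : ℝ) / M))) := by
  have h1 : ZMod.stdAddChar a = Complex.exp (((2 * Real.pi * (a.valMinAbs : ℝ) / M : ℝ) : ℂ) *
      Complex.I) := by
    have h2 := ZMod.stdAddChar_coe (N := M) a.valMinAbs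
    rw [ZMod.coe_valMinAbs] at h2
    rw [h2]
    congr 1
    push_cast
    ring
  rw [h1, norm_exp_sub]

theorem norm_std_mul_sub (a b : ZMod M) : ‖ZMod.stdAddChar (a * b) - 1‖ ≤
    b.valMinAbs.natAbs *
      Real.sqrt (2 * (1 - Real.cos (2 * Real.pi * (a.valMinAbs : ℝ) / M))) := by
  have h1 : ZMod.stdAddChar (a * b) = ZMod.stdAddChar a ^ b.valMinAbs := by
    have h2 : a * b = b.valMinAbs • a := by
      rw [zsmul_eq_mul, ZMod.coe_valMinAbs, mul_comm]
    rw [h2, AddChar.map_zsmul_eq_zpow]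
  rw [h1, ← norm_std_sub]
  exact norm_zpow_sub (norm_std a) _

end std

/-! sums -/

theorem sum34 (n : ℕ) : ∑ j ∈ Finset.range n, ((j : ℝ) + 1) ^ (-(3 : ℝ) / 4) ≤
    4 * (n : ℝ) ^ ((1 : ℝ) / 4) := by
  induction n with
  | zero => simp
  | succ n ih =>
    rw [Finset.sum_range_succ]
    have hn : (0 : ℝ) ≤ n := Nat.cast_nonneg n
    obtain ⟨a, ha⟩ : ∃ a : ℝ, a = ((n : ℝ) + 1) ^ ((1 : ℝ) / 4) := ⟨_, rfl⟩
    obtain ⟨b, hb⟩ : ∃ b : ℝ, b = (n : ℝ) ^ ((1 : ℝ) / 4) := ⟨_, rfl⟩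
    have ha0 : 0 < a := by rw [ha]; positivity
    have hb0 : 0 ≤ b := by rw [hb]; positivity
    have ha4 : a ^ 4 = n + 1 := by
      rw [ha, ← Real.rpow_natCast, ← Real.rpow_mul (by linarith)]
      norm_num
    have hb4 : b ^ 4 = n := by
      rw [hb, ← Real.rpow_natCast, ← Real.rpow_mul hn]
      norm_num
    have hab : b ≤ a := by
      rw [ha, hb]
      exact Real.rpow_le_rpow hn (by linarith) (by norm_num)
    have h1 : ((n : ℝ) + 1) ^ (-(3 : ℝ) / 4) = 1 / a ^ 3 := by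
      rw [ha, ← Real.rpow_natCast, ← Real.rpow_mul (by linarith), one_div,
        ← Real.rpow_neg (by linarith)]
      norm_num
    push_cast
    rw [← ha, h1]
    rw [← hb] at ih
    have h2 : 1 / a ^ 3 ≤ 4 * (a - b) := by
      rw [div_le_iff₀ (by positivity)]
      have e : (a - b) * (a ^ 3 + a ^ 2 * b + a * b ^ 2 + b ^ 3) = 1 := by
        have : (a - b) * (a ^ 3 + a ^ 2 * b + a * b ^ 2 + b ^ 3) = a ^ 4 - b ^ 4 := by ring
        rw [this, ha4, hb4]
        ring
      have h3 : a ^ 3 + a ^ 2 * b + a * b ^ 2 + b ^ 3 ≤ 4 * a ^ 3 := by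
        have i1 : a ^ 2 * b ≤ a ^ 2 * a := mul_le_mul_of_nonneg_left hab (by positivity)
        have i2 : b ^ 2 ≤ a ^ 2 := pow_le_pow_left₀ hb0 hab 2
        have i3 : a * b ^ 2 ≤ a * a ^ 2 := mul_le_mul_of_nonneg_left i2 ha0.le
        have i4 : b ^ 3 ≤ a ^ 3 := pow_le_pow_left₀ hb0 hab 3
        nlinarith
      have h4 := mul_le_mul_of_nonneg_left h3 (sub_nonneg.2 hab)
      rw [e] at h4
      linarith
    linarith

theorem sum54 (n : ℕ) (hn1 : 1 ≤ n) : ∑ j ∈ Finset.range n, ((j : ℝ) + 1) ^ (-(5 : ℝ) / 4) ≤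
    5 - 4 * (n : ℝ) ^ (-(1 : ℝ) / 4) := by
  induction n, hn1 using Nat.le_induction with
  | base => norm_num
  | succ n hn1 ih =>
    rw [Finset.sum_range_succ]
    have hn : (0 : ℝ) < n := by exact_mod_cast hn1
    obtain ⟨a, ha⟩ : ∃ a : ℝ, a = ((n : ℝ) + 1) ^ ((1 : ℝ) / 4) := ⟨_, rfl⟩
    obtain ⟨b, hb⟩ : ∃ b : ℝ, b = (n : ℝ) ^ ((1 : ℝ) / 4) := ⟨_, rfl⟩
    have ha0 : 0 < a := by rw [ha]; positivity
    have hb0 : 0 < b := by rw [hb]; positivity
    have ha4 : a ^ 4 = n + 1 := by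
      rw [ha, ← Real.rpow_natCast, ← Real.rpow_mul (by linarith)]
      norm_num
    have hb4 : b ^ 4 = n := by
      rw [hb, ← Real.rpow_natCast, ← Real.rpow_mul hn.le]
      norm_num
    have hab : b ≤ a := by
      rw [ha, hb]
      exact Real.rpow_le_rpow hn.le (by linarith) (by norm_num)
    have h1 : ((n : ℝ) + 1) ^ (-(5 : ℝ) / 4) = 1 / a ^ 5 := by
      rw [ha, ← Real.rpow_natCast, ← Real.rpow_mul (by linarith), one_div,
        ← Real.rpow_neg (by linarith)]
      norm_num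
    have h5 : (n : ℝ) ^ (-(1 : ℝ) / 4) = 1 / b := by
      rw [hb, one_div, ← Real.rpow_neg hn.le]
      norm_num
    have h6 : ((n : ℝ) + 1) ^ (-(1 : ℝ) / 4) = 1 / a := by
      rw [ha, one_div, ← Real.rpow_neg (by linarith)]
      norm_num
    push_cast
    rw [h1, h6]
    rw [h5] at ih
    have h2 : 1 / a ^ 5 ≤ 4 * (1 / b - 1 / a) := by
      have e : (a - b) * (a ^ 3 + a ^ 2 * b + a * b ^ 2 + b ^ 3) = 1 := by
        have : (a - b) * (a ^ 3 + a ^ 2 * b + a * b ^ 2 + b ^ 3) = a ^ 4 - b ^ 4 := by ring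
        rw [this, ha4, hb4]
        ring
      have h3 : a ^ 3 + a ^ 2 * b + a * b ^ 2 + b ^ 3 ≤ 4 * a ^ 3 := by
        have i1 : a ^ 2 * b ≤ a ^ 2 * a := mul_le_mul_of_nonneg_left hab (by positivity)
        have i2 : b ^ 2 ≤ a ^ 2 := pow_le_pow_left₀ hb0.le hab 2
        have i3 : a * b ^ 2 ≤ a * a ^ 2 := mul_le_mul_of_nonneg_left i2 ha0.le
        have i4 : b ^ 3 ≤ a ^ 3 := pow_le_pow_left₀ hb0.le hab 3
        nlinarith
      have h4 := mul_le_mul_of_nonneg_left h3 (sub_nonneg.2 hab)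
      rw [e] at h4
      have e2 : 4 * (1 / b - 1 / a) = 4 * (a - b) / (b * a) := by
        field_simp
      rw [e2, div_le_div_iff₀ (by positivity) (by positivity)]
      have h7 : b * a ≤ a ^ 2 := by
        rw [sq]
        exact mul_le_mul_of_nonneg_right hab ha0.le
      have h8 : 1 * a ^ 2 ≤ (4 * (a - b)) * a ^ 5 := by
        have h9 : a ^ 2 * 1 ≤ a ^ 2 * ((a - b) * (4 * a ^ 3)) :=
          mul_le_mul_of_nonneg_left h4 (by positivity)
        calc 1 * a ^ 2 = a ^ 2 * 1 := by ring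
          _ ≤ a ^ 2 * ((a - b) * (4 * a ^ 3)) := h9
          _ = _ := by ring
      linarith
    linarith

/-- weighted Cauchy-Schwarz -/
theorem sq_sum_le_w {ι : Type} (s : Finset ι) (a w : ι → ℝ) (hw : ∀ i ∈ s, 0 < w i) :
    (∑ i ∈ s, a i) ^ 2 ≤ (∑ i ∈ s, w i) * ∑ i ∈ s, a i ^ 2 / w i := by
  have h := Finset.sum_mul_sq_le_sq_mul_sq s (fun i => Real.sqrt (w i))
    (fun i => a i / Real.sqrt (w i))
  have h1 : ∑ i ∈ s, Real.sqrt (w i) * (a i / Real.sqrt (w i)) = ∑ i ∈ s, a i := by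
    refine Finset.sum_congr rfl fun i hi => ?_
    have : Real.sqrt (w i) ≠ 0 := (Real.sqrt_pos.2 (hw i hi)).ne'
    field_simp
  have h2 : ∑ i ∈ s, Real.sqrt (w i) ^ 2 = ∑ i ∈ s, w i :=
    Finset.sum_congr rfl fun i hi => Real.sq_sqrt (hw i hi).le
  have h3 : ∑ i ∈ s, (a i / Real.sqrt (w i)) ^ 2 = ∑ i ∈ s, a i ^ 2 / w i := by
    refine Finset.sum_congr rfl fun i hi => ?_
    rw [div_pow, Real.sq_sqrt (hw i hi).le]
  rw [h1, h2, h3] at h
  exact h

section basic

variable {d M : ℕ} [NeZero M]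

theorem norm_ec (p y : Tor d M) : ‖ec p y‖ = 1 := by
  unfold ec
  rw [norm_prod]
  exact Finset.prod_eq_one fun i _ => norm_std _

theorem ec_add (p y z : Tor d M) : ec p (y + z) = ec p y * ec p z := by
  unfold ec
  rw [← Finset.prod_mul_distrib]
  refine Finset.prod_congr rfl fun i _ => ?_
  rw [← AddChar.map_add_eq_mul, Pi.add_apply, mul_add]

omit [NeZero M] in
theorem ds_nonneg (p : Tor d M) : 0 ≤ ds p := by
  unfold ds
  refine Finset.sum_nonneg fun i _ => ?_
  have := Real.cos_le_one (2 * Real.pi * ((p i).valMinAbs : ℝ) / M)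
  linarith

theorem norm_ec_sub (p x y : Tor d M) :
    ‖ec p (y - x) - 1‖ ≤ d * (tds x y : ℝ) * Real.sqrt (ds p) := by
  unfold ec
  refine (norm_prod_sub _ _ fun i => norm_std _).trans ?_
  have h1 : ∀ i ∈ (Finset.univ : Finset (Fin d)),
      ‖ZMod.stdAddChar (p i * (y - x) i) - 1‖ ≤ (tds x y : ℝ) * Real.sqrt (ds p) := by
    intro i _
    refine (norm_std_mul_sub _ _).trans ?_
    have h2 : ((y - x) i).valMinAbs.natAbs ≤ tds x y :=
      Finset.le_sup (f := fun i => (y i - x i).valMinAbs.natAbs) (Finset.mem_univ i)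
    have h3 : 2 * (1 - Real.cos (2 * Real.pi * ((p i).valMinAbs : ℝ) / M)) ≤ ds p := by
      unfold ds
      refine Finset.single_le_sum
        (f := fun i => 2 * (1 - Real.cos (2 * Real.pi * ((p i).valMinAbs : ℝ) / M)))
        (fun i _ => ?_) (Finset.mem_univ i)
      have := Real.cos_le_one (2 * Real.pi * ((p i).valMinAbs : ℝ) / M)
      change 0 ≤ 2 * (1 - Real.cos (2 * Real.pi * ((p i).valMinAbs : ℝ) / M))
      linarith
    exact mul_le_mul (by exact_mod_cast h2) (Real.sqrt_le_sqrt h3) (Real.sqrt_nonneg _)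
      (Nat.cast_nonneg _)
  refine (Finset.sum_le_card_nsmul _ _ _ h1).trans ?_
  rw [Finset.card_univ, Fintype.card_fin, nsmul_eq_mul, mul_assoc]

theorem norm_ft_le (f : Tor d M → ℂ) (p : Tor d M) : ‖ft f p‖ ≤ ∑ y, ‖f y‖ := by
  unfold ft
  refine (norm_sum_le _ _).trans (Finset.sum_le_sum fun y _ => ?_)
  rw [norm_mul, RCLike.norm_conj, norm_ec, one_mul]

/-- the landscape equation -/
theorem om_eq {z μ : ℝ} (hμ : 0 < μ) {V : Tor d M → ℝ} (hA : (AM z V).PosDef) (y : Tor d M) :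
    ∑ i : Fin d, (om z μ V (y + ev i) + om z μ V (y - ev i)) =
      (z - V y) * om z μ V y - 1 / μ := by
  have h1 := congrFun (AM_DD hA) y
  rw [AM_mulVec] at h1
  unfold om
  have h2 : ∑ i : Fin d, (DD z V (y + ev i) / μ + DD z V (y - ev i) / μ) =
      (∑ i : Fin d, (DD z V (y + ev i) + DD z V (y - ev i))) / μ := by
    rw [Finset.sum_div]
    exact Finset.sum_congr rfl fun i _ => (add_div _ _ _).symm
  have h3 : ∑ i : Fin d, (DD z V (y + ev i) + DD z V (y - ev i)) =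
      (z - V y) * DD z V y - 1 := by
    simp only [Pi.one_apply] at h1
    linarith
  rw [h2, h3]
  field_simp

/-- the operator applied to the partial sum of the powers -/
theorem AM_geom (hd : 0 < d) (z : ℝ) (V : Tor d M → ℝ) (n : ℕ) (x y : Tor d M) :
    (AM z V *ᵥ fun u => (∑ j ∈ Finset.range n, (TM z V ^ j) x u) / (8 * d)) y =
      (if y = x then 1 else 0) - (TM z V ^ n) x y := by
  have hd' : (0 : ℝ) < d := by exact_mod_cast hd
  have h1 : (1 : Matrix (Tor d M) (Tor d M) ℝ) - TM z V = (1 / (8 * (d : ℝ))) • AM z V := by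
    unfold TM
    abel
  have h2 := geom_sum_mul_neg (TM z V) n
  rw [h1] at h2
  have h3 := congrFun (congrFun h2 x) y
  rw [Matrix.sub_apply, Matrix.one_apply, Matrix.mul_apply] at h3
  have h4 : (if x = y then (1 : ℝ) else 0) = if y = x then 1 else 0 := by
    by_cases h : x = y
    · rw [if_pos h, if_pos h.symm]
    · rw [if_neg h, if_neg (Ne.symm h)]
  rw [h4] at h3
  rw [← h3]
  unfold Matrix.mulVec dotProduct
  refine Finset.sum_congr rfl fun u _ => ?_
  change AM z V y u * ((∑ j ∈ Finset.range n, (TM z V ^ j) x u) / (8 * d)) =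
    (∑ i ∈ Finset.range n, TM z V ^ i) x u * ((1 / (8 * (d : ℝ))) • AM z V) u y
  rw [AM_symm z V y u, Matrix.smul_apply, smul_eq_mul, Matrix.sum_apply]
  field_simp

theorem aop_div {ω : Tor d M → ℝ} (hω : ∀ y, ω y ≠ 0) {z h lam : ℝ} {V : Tor d M → ℝ}
    (heq : ∀ y, ∑ i : Fin d, (ω (y + ev i) + ω (y - ev i)) = (z - V y) * ω y - h)
    (s : Tor d M → ℝ) (y : Tor d M) :
    aop ω h lam (fun u => ((s u / ω u : ℝ) : ℂ)) y =
      ((ω y * (AM (z - lam) V *ᵥ s) y : ℝ) : ℂ) := by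
  have h1 : ∑ i : Fin d, (ω y * ω (y + ev i) * (s y / ω y - s (y + ev i) / ω (y + ev i)) +
      ω y * ω (y - ev i) * (s y / ω y - s (y - ev i) / ω (y - ev i))) +
      (h * ω y - lam * ω y ^ 2) * (s y / ω y) = ω y * (AM (z - lam) V *ᵥ s) y := by
    rw [AM_mulVec]
    have h2 : ∀ i : Fin d, ω y * ω (y + ev i) * (s y / ω y - s (y + ev i) / ω (y + ev i)) +
        ω y * ω (y - ev i) * (s y / ω y - s (y - ev i) / ω (y - ev i)) =
        s y * (ω (y + ev i) + ω (y - ev i)) - ω y * (s (y + ev i) + s (y - ev i)) := by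
      intro i
      have e1 := hω y
      have e2 := hω (y + ev i)
      have e3 := hω (y - ev i)
      field_simp
      ring
    rw [Finset.sum_congr rfl fun i _ => h2 i, Finset.sum_sub_distrib, ← Finset.mul_sum,
      ← Finset.mul_sum, heq]
    have e1 := hω y
    field_simp
    ring
  rw [← h1]
  unfold aop
  push_cast
  rfl

end basic

theorem growth_sum {d : ℕ} (hd : 3 ≤ d) {n : ℕ} (hn : 1 ≤ n) :
    (∑ j ∈ Finset.range n, ((j : ℝ) + 1) ^ (-(d : ℝ) / 4)) ^ 2 ≤
      25 * growth d n * (1 + Real.log n) := by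
  have hn' : (1 : ℝ) ≤ n := by exact_mod_cast hn
  have hlog : 0 ≤ Real.log n := Real.log_nonneg hn'
  obtain ⟨W, hW⟩ : ∃ W, W = ∑ j ∈ Finset.range n, ((j : ℝ) + 1) ^ (-(d : ℝ) / 4) := ⟨_, rfl⟩
  rw [← hW]
  have hW0 : 0 ≤ W := by
    rw [hW]
    exact Finset.sum_nonneg fun j _ => by positivity
  unfold growth
  by_cases h3 : d = 3
  · rw [if_pos h3]
    have h1 : W ≤ 4 * (n : ℝ) ^ ((1 : ℝ) / 4) := by
      rw [hW, h3]
      push_cast
      exact sum34 n
    have h2 : W ^ 2 ≤ (4 * (n : ℝ) ^ ((1 : ℝ) / 4)) ^ 2 := pow_le_pow_left₀ hW0 h1 2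
    have h4 : (4 * (n : ℝ) ^ ((1 : ℝ) / 4)) ^ 2 = 16 * Real.sqrt n := by
      rw [mul_pow, ← Real.rpow_natCast ((n : ℝ) ^ ((1 : ℝ) / 4)), ← Real.rpow_mul (by linarith),
        Real.sqrt_eq_rpow]
      norm_num
    rw [h4] at h2
    have h5 : 0 ≤ Real.sqrt n := Real.sqrt_nonneg _
    nlinarith [mul_nonneg h5 hlog]
  · rw [if_neg h3]
    by_cases h4 : d = 4
    · rw [if_pos h4]
      have h1 : W ≤ 1 + Real.log n := by
        have h2 := harmonic_le_one_add_log n
        have h5 : W = ((harmonic n : ℚ) : ℝ) := by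
          rw [hW, h4, harmonic]
          push_cast
          refine Finset.sum_congr rfl fun j _ => ?_
          rw [show (-4 : ℝ) / 4 = -1 by norm_num, Real.rpow_neg_one]
        rw [h5]
        exact h2
      have h2 : W ^ 2 ≤ (1 + Real.log n) ^ 2 := pow_le_pow_left₀ hW0 h1 2
      nlinarith [mul_nonneg hlog hlog]
    · rw [if_neg h4]
      have h5 : (5 : ℝ) ≤ d := by exact_mod_cast (by omega : 5 ≤ d)
      have h1 : W ≤ 5 := by
        have h2 : W ≤ ∑ j ∈ Finset.range n, ((j : ℝ) + 1) ^ (-(5 : ℝ) / 4) := by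
          rw [hW]
          refine Finset.sum_le_sum fun j _ => ?_
          apply Real.rpow_le_rpow_of_exponent_le
          · have : (0 : ℝ) ≤ j := Nat.cast_nonneg j
            linarith
          · linarith
        have h6 := sum54 n hn
        have h7 : (0 : ℝ) ≤ (n : ℝ) ^ (-(1 : ℝ) / 4) := by positivity
        linarith
      have h2 : W ^ 2 ≤ 5 ^ 2 := pow_le_pow_left₀ hW0 h1 2
      nlinarith

theorem src (hke : HkeStmt) (fmo : FmoStmt) : SrcStmt := by
  intro d hd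
  obtain ⟨K, hK1, hK⟩ := hke d (by omega)
  obtain ⟨F, hF1, hF⟩ := fmo d (by omega)
  have hd0 : (3 : ℝ) ≤ d := by exact_mod_cast hd
  have hdF : (0 : ℝ) ≤ 2 * d * F := by positivity
  refine ⟨25 * K + 2 * d * F, by linarith, ?_⟩
  intro M _ z μ ε lam V n x hz hμ hε hε1 hflat hlam hn1 hn2 hn
  obtain ⟨hV, hA, hD⟩ := id hflat
  obtain ⟨ω, hωdef⟩ : ∃ ω, ω = om z μ V := ⟨_, rfl⟩
  obtain ⟨T, hT⟩ : ∃ T, T = TM (z - lam) V := ⟨_, rfl⟩
  have hω : ∀ y, |ω y - 1| ≤ ε := by
    intro y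
    have h1 := hD y
    rw [hωdef]
    unfold om
    have h2 : DD z V y / μ - 1 = (DD z V y - μ) / μ := by field_simp
    rw [h2, abs_div, abs_of_pos hμ, div_le_iff₀ hμ]
    exact h1
  have hω1 : ∀ y, 49 / 50 ≤ ω y := by
    intro y
    have := (abs_le.1 (hω y)).1
    linarith
  have hω2 : ∀ y, ω y ≤ 51 / 50 := by
    intro y
    have := (abs_le.1 (hω y)).2
    linarith
  have hω0 : ∀ y, 0 < ω y := fun y => by
    have := hω1 y
    linarith
  have hh : 0 ≤ lam + 1 / μ := by positivity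
  have hn' : (1 : ℝ) ≤ n := by exact_mod_cast hn
  have hlog : 0 ≤ Real.log n := Real.log_nonneg hn'
  have hpow : ∀ j ≤ n, (∀ y, 0 ≤ (T ^ j) x y) ∧
      |∑ y, (T ^ j) x y * ω y - ω x| ≤ K * j * (lam + 1 / μ) ∧
      ∑ y, ((T ^ j) x y) ^ 2 ≤ K * ((j : ℝ) + 1) ^ (-(d : ℝ) / 2) := by
    intro j hj
    have hj' : (j : ℝ) ≤ n := by exact_mod_cast hj
    rw [hT, hωdef]
    exact hK M z μ ε lam V j x hz hμ hε hε1 hflat hlam
      ((mul_le_mul_of_nonneg_right hj' hh).trans hn1) (by omega)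
  have hmass : ∀ j ≤ n, ∑ y, (T ^ j) x y * ω y ≤ 3 * K := by
    intro j hj
    have h1 := (abs_le.1 (hpow j hj).2.1).2
    have hj' : (j : ℝ) ≤ n := by exact_mod_cast hj
    have h2 : K * j * (lam + 1 / μ) ≤ K * 1 := by
      rw [mul_assoc]
      exact mul_le_mul_of_nonneg_left ((mul_le_mul_of_nonneg_right hj' hh).trans hn1)
        (by linarith)
    have h3 := hω2 x
    linarith
  -- the partial sum
  obtain ⟨S, hS⟩ : ∃ S : Tor d M → ℝ, S = fun y => ∑ j ∈ Finset.range n, (T ^ j) x y := ⟨_, rfl⟩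
  have hS0 : ∀ y, 0 ≤ S y := by
    intro y
    rw [hS]
    exact Finset.sum_nonneg fun j hj => (hpow j (Finset.mem_range.1 hj).le).1 y
  have hsfn : ∀ y, sfn z μ lam V n x y = ((S y / (8 * d) / ω y : ℝ) : ℂ) := by
    intro y
    rw [hS, hT, hωdef]
    rfl
  have hSfn : ∀ y, Sfn z μ lam V n x y = ((ω y * (T ^ n) x y : ℝ) : ℂ) := by
    intro y
    rw [hT, hωdef]
    rfl
  have hsn : ∀ y, ‖sfn z μ lam V n x y‖ ≤ S y * ω y ∧ ‖sfn z μ lam V n x y‖ ≤ S y := by
    intro y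
    rw [hsfn, Complex.norm_real, Real.norm_of_nonneg (by have := hS0 y; have := hω0 y; positivity)]
    have h1 := hω1 y
    have h2 := hS0 y
    have h3 := hω0 y
    have h4 : S y / (8 * d) / ω y ≤ S y * (49 / 50) := by
      rw [div_div, div_le_iff₀ (by positivity)]
      have h5 : (1 : ℝ) ≤ 49 / 50 * (8 * d * ω y) := by nlinarith
      calc S y = S y * 1 := (mul_one _).symm
        _ ≤ S y * (49 / 50 * (8 * d * ω y)) := mul_le_mul_of_nonneg_left h5 h2
        _ = _ := by ring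
    constructor
    · exact h4.trans (mul_le_mul_of_nonneg_left h1 h2)
    · linarith
  have hSn : ∀ y, ‖Sfn z μ lam V n x y‖ = ω y * (T ^ n) x y := by
    intro y
    rw [hSfn, Complex.norm_real, Real.norm_of_nonneg
      (mul_nonneg (hω0 y).le ((hpow n le_rfl).1 y))]
  have hSsum : ∑ y, ω y * (T ^ n) x y ≤ 3 * K := by
    have h1 := hmass n le_rfl
    calc ∑ y, ω y * (T ^ n) x y = ∑ y, (T ^ n) x y * ω y :=
          Finset.sum_congr rfl fun y _ => mul_comm _ _
      _ ≤ _ := h1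
  refine ⟨?_, ?_, ?_, ?_, ?_, ?_⟩
  · -- the equation
    intro y
    have h1 : (fun u => sfn z μ lam V n x u) = fun u => (((S u / (8 * d)) / ω u : ℝ) : ℂ) :=
      funext hsfn
    have heq : ∀ y, ∑ i : Fin d, (ω (y + ev i) + ω (y - ev i)) = (z - V y) * ω y - 1 / μ := by
      intro y
      rw [hωdef]
      exact om_eq hμ hA y
    rw [← hωdef, h1, aop_div (fun y => (hω0 y).ne') heq (fun u => S u / (8 * d)) y]
    have h2 := AM_geom (by omega : 0 < d) (z - lam) V n x y
    rw [← hT] at h2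
    have h3 : (AM (z - lam) V *ᵥ fun u => S u / (8 * d)) y =
        (if y = x then 1 else 0) - (T ^ n) x y := by
      rw [hS]
      exact h2
    rw [h3, hSfn]
    by_cases h : y = x
    · rw [if_pos h, if_pos h, h]
      push_cast
      ring
    · rw [if_neg h, if_neg h]
      push_cast
      ring
  · intro p
    have h1 : ∑ y, S y * ω y ≤ n * (3 * K) := by
      have h2 : ∑ y, S y * ω y = ∑ j ∈ Finset.range n, ∑ y, (T ^ j) x y * ω y := by
        rw [hS, Finset.sum_comm]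
        exact Finset.sum_congr rfl fun y _ => Finset.sum_mul _ _ _
      rw [h2]
      refine (Finset.sum_le_card_nsmul _ _ _ fun j hj => hmass j (Finset.mem_range.1 hj).le).trans
        ?_
      rw [Finset.card_range, nsmul_eq_mul]
    have h2 : ‖ft (sfn z μ lam V n x) p‖ ≤ n * (3 * K) :=
      (norm_ft_le _ _).trans ((Finset.sum_le_sum fun y _ => (hsn y).1).trans h1)
    have h3 : n * (3 * K) ≤ (25 * K + 2 * d * F) * n := by
      have h4 : 3 * K ≤ 25 * K + 2 * d * F := by linarith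
      calc (n : ℝ) * (3 * K) = (3 * K) * n := by ring
        _ ≤ _ := mul_le_mul_of_nonneg_right h4 (by linarith)
    exact h2.trans h3
  · -- the square sum
    have h1 : ∑ y, ‖sfn z μ lam V n x y‖ ^ 2 ≤ ∑ y, S y ^ 2 :=
      Finset.sum_le_sum fun y _ => pow_le_pow_left₀ (norm_nonneg _) (hsn y).2 2
    obtain ⟨W, hW⟩ : ∃ W, W = ∑ j ∈ Finset.range n, ((j : ℝ) + 1) ^ (-(d : ℝ) / 4) := ⟨_, rfl⟩
    have hW0 : 0 ≤ W := by
      rw [hW]
      exact Finset.sum_nonneg fun j _ => by positivity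
    have h2 : ∑ y, S y ^ 2 ≤ K * W ^ 2 := by
      have h3 : ∀ y, S y ^ 2 ≤ W * ∑ j ∈ Finset.range n,
          ((T ^ j) x y) ^ 2 / ((j : ℝ) + 1) ^ (-(d : ℝ) / 4) := by
        intro y
        rw [hS, hW]
        exact sq_sum_le_w _ _ _ fun j _ => by positivity
      refine (Finset.sum_le_sum fun y _ => h3 y).trans ?_
      rw [← Finset.mul_sum, Finset.sum_comm]
      have h4 : ∀ j ∈ Finset.range n,
          ∑ y, ((T ^ j) x y) ^ 2 / ((j : ℝ) + 1) ^ (-(d : ℝ) / 4) ≤
            K * ((j : ℝ) + 1) ^ (-(d : ℝ) / 4) := by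
        intro j hj
        rw [← Finset.sum_div, div_le_iff₀ (by positivity)]
        refine (hpow j (Finset.mem_range.1 hj).le).2.2.trans (le_of_eq ?_)
        have hj0 : (0 : ℝ) < (j : ℝ) + 1 := by positivity
        rw [mul_assoc, ← Real.rpow_add hj0]
        congr 2
        ring
      have h5 : ∑ j ∈ Finset.range n, ∑ y, ((T ^ j) x y) ^ 2 / ((j : ℝ) + 1) ^ (-(d : ℝ) / 4) ≤
          K * W := by
        rw [hW, Finset.mul_sum]
        exact Finset.sum_le_sum h4
      calc W * ∑ j ∈ Finset.range n, ∑ y, ((T ^ j) x y) ^ 2 / ((j : ℝ) + 1) ^ (-(d : ℝ) / 4)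
          ≤ W * (K * W) := mul_le_mul_of_nonneg_left h5 hW0
        _ = K * W ^ 2 := by ring
    have h3 := growth_sum hd hn
    rw [← hW] at h3
    have hg : 0 ≤ growth d n * (1 + Real.log n) := by
      have : 0 ≤ W ^ 2 := sq_nonneg W
      nlinarith
    calc ∑ y, ‖sfn z μ lam V n x y‖ ^ 2 ≤ K * W ^ 2 := h1.trans h2
      _ ≤ K * (25 * growth d n * (1 + Real.log n)) := mul_le_mul_of_nonneg_left h3 (by linarith)
      _ = (25 * K) * (growth d n * (1 + Real.log n)) := by ring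
      _ ≤ (25 * K + 2 * d * F) * (growth d n * (1 + Real.log n)) :=
        mul_le_mul_of_nonneg_right (by linarith) hg
      _ = _ := by ring
  · intro p
    refine (norm_ft_le _ _).trans ?_
    rw [Finset.sum_congr rfl fun y _ => hSn y]
    linarith
  · have h1 : ∑ y, ‖Sfn z μ lam V n x y‖ ^ 2 ≤ 2 * ∑ y, ((T ^ n) x y) ^ 2 := by
      rw [Finset.mul_sum]
      refine Finset.sum_le_sum fun y _ => ?_
      rw [hSn, mul_pow]
      have h2 := hω1 y
      have h3 := hω2 y
      exact mul_le_mul_of_nonneg_right (by nlinarith) (sq_nonneg _)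
    have h2 := (hpow n le_rfl).2.2
    have h3 : ((n : ℝ) + 1) ^ (-(d : ℝ) / 2) ≤ (1 / (n : ℝ)) ^ ((d : ℝ) / 2) := by
      have e : (1 / (n : ℝ)) ^ ((d : ℝ) / 2) = (n : ℝ) ^ (-(d : ℝ) / 2) := by
        rw [one_div, Real.inv_rpow (by linarith), ← Real.rpow_neg (by linarith), neg_div]
      rw [e]
      exact Real.rpow_le_rpow_of_nonpos (by linarith) (by linarith)
        (by have : (0 : ℝ) ≤ d := by linarith
            rw [neg_div]
            linarith)
    have h4 : (0 : ℝ) ≤ (1 / (n : ℝ)) ^ ((d : ℝ) / 2) := by positivity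
    calc ∑ y, ‖Sfn z μ lam V n x y‖ ^ 2 ≤ 2 * (K * ((n : ℝ) + 1) ^ (-(d : ℝ) / 2)) := by linarith
      _ ≤ 2 * (K * (1 / (n : ℝ)) ^ ((d : ℝ) / 2)) :=
        mul_le_mul_of_nonneg_left (mul_le_mul_of_nonneg_left h3 (by linarith)) (by norm_num)
      _ = (2 * K) * (1 / (n : ℝ)) ^ ((d : ℝ) / 2) := by ring
      _ ≤ _ := mul_le_mul_of_nonneg_right (by linarith) h4
  · intro p
    have h1 : ft (Sfn z μ lam V n x) p - (starRingEnd ℂ) (ec p x) =
        (starRingEnd ℂ) (ec p x) *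
          (∑ y, ((starRingEnd ℂ) (ec p (y - x)) - 1) * ((ω y * (T ^ n) x y : ℝ) : ℂ) +
            ((∑ y, ω y * (T ^ n) x y - 1 : ℝ) : ℂ)) := by
      have h2 : ft (Sfn z μ lam V n x) p =
          (starRingEnd ℂ) (ec p x) * ∑ y, (starRingEnd ℂ) (ec p (y - x)) *
            ((ω y * (T ^ n) x y : ℝ) : ℂ) := by
        unfold ft
        rw [Finset.mul_sum]
        refine Finset.sum_congr rfl fun y _ => ?_
        have e : ec p y = ec p x * ec p (y - x) := by
          rw [← ec_add]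
          congr 1
          abel
        rw [e, map_mul, hSfn, mul_assoc]
      rw [h2]
      have h3 : ∑ y, ((starRingEnd ℂ) (ec p (y - x)) - 1) * ((ω y * (T ^ n) x y : ℝ) : ℂ) =
          ∑ y, (starRingEnd ℂ) (ec p (y - x)) * ((ω y * (T ^ n) x y : ℝ) : ℂ) -
            ((∑ y, ω y * (T ^ n) x y : ℝ) : ℂ) := by
        rw [Complex.ofReal_sum, ← Finset.sum_sub_distrib]
        refine Finset.sum_congr rfl fun y _ => ?_
        ring
      rw [h3]
      push_cast
      ring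
    have hsq := Real.sqrt_nonneg (ds p)
    have h2 : ‖∑ y, ((starRingEnd ℂ) (ec p (y - x)) - 1) * ((ω y * (T ^ n) x y : ℝ) : ℂ)‖ ≤
        51 / 50 * (d * Real.sqrt (ds p) * (F * Real.sqrt (n * (1 + Real.log n)))) := by
      have h3 := hF M z μ ε lam V n x hz hμ hε hε1 hflat hlam hn1 hn2 hn
      rw [← hT] at h3
      have h4 : ∀ y, ‖((starRingEnd ℂ) (ec p (y - x)) - 1) * ((ω y * (T ^ n) x y : ℝ) : ℂ)‖ ≤
          51 / 50 * (d * Real.sqrt (ds p)) * ((T ^ n) x y * (tds x y : ℝ)) := by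
        intro y
        have h5 : (starRingEnd ℂ) (ec p (y - x)) - 1 = (starRingEnd ℂ) (ec p (y - x) - 1) := by
          rw [map_sub, map_one]
        have h6 := (hpow n le_rfl).1 y
        rw [norm_mul, h5, RCLike.norm_conj, Complex.norm_real,
          Real.norm_of_nonneg (mul_nonneg (hω0 y).le h6)]
        have h7 := norm_ec_sub p x y
        have h8 : ω y * (T ^ n) x y ≤ 51 / 50 * (T ^ n) x y :=
          mul_le_mul_of_nonneg_right (hω2 y) h6
        calc ‖ec p (y - x) - 1‖ * (ω y * (T ^ n) x y) ≤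
            (d * (tds x y : ℝ) * Real.sqrt (ds p)) * (51 / 50 * (T ^ n) x y) :=
              mul_le_mul h7 h8 (mul_nonneg (hω0 y).le h6) (by positivity)
          _ = _ := by ring
      refine (norm_sum_le _ _).trans ((Finset.sum_le_sum fun y _ => h4 y).trans ?_)
      rw [← Finset.mul_sum]
      calc 51 / 50 * (d * Real.sqrt (ds p)) * ∑ y, (T ^ n) x y * (tds x y : ℝ) ≤
          51 / 50 * (d * Real.sqrt (ds p)) * (F * Real.sqrt (n * (1 + Real.log n))) :=
            mul_le_mul_of_nonneg_left h3 (by positivity)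
        _ = _ := by ring
    have h3 : ‖((∑ y, ω y * (T ^ n) x y - 1 : ℝ) : ℂ)‖ ≤ ε + K * (n * (lam + 1 / μ)) := by
      rw [Complex.norm_real, Real.norm_eq_abs]
      have h4 := (hpow n le_rfl).2.1
      have h5 := hω x
      have h6 : ∑ y, ω y * (T ^ n) x y - 1 =
          (∑ y, (T ^ n) x y * ω y - ω x) + (ω x - 1) := by
        have : ∑ y, ω y * (T ^ n) x y = ∑ y, (T ^ n) x y * ω y :=
          Finset.sum_congr rfl fun y _ => mul_comm _ _
        rw [this]
        ring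
      rw [h6]
      refine (abs_add_le _ _).trans ?_
      have h7 : K * n * (lam + 1 / μ) = K * (n * (lam + 1 / μ)) := by ring
      linarith
    rw [h1, norm_mul, RCLike.norm_conj, norm_ec, one_mul]
    refine (norm_add_le _ _).trans ((add_le_add h2 h3).trans ?_)
    rw [Real.sqrt_mul (ds_nonneg p)]
    obtain ⟨Y, hY⟩ : ∃ Y, Y = Real.sqrt (ds p) * Real.sqrt (n * (1 + Real.log n)) := ⟨_, rfl⟩
    have hY0 : 0 ≤ Y := by rw [hY]; positivity
    obtain ⟨X, hX⟩ : ∃ X, X = (n : ℝ) * (lam + 1 / μ) := ⟨_, rfl⟩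
    have hX0 : 0 ≤ X := by rw [hX]; positivity
    rw [← hY, ← hX]
    have e : 51 / 50 * (d * Real.sqrt (ds p) * (F * Real.sqrt (n * (1 + Real.log n)))) =
        51 / 50 * (d * F) * Y := by rw [hY]; ring
    rw [e]
    have hdF' : 0 ≤ d * F := by positivity
    have t1 : 51 / 50 * (d * F) * Y ≤ (25 * K + 2 * d * F) * Y :=
      mul_le_mul_of_nonneg_right (by linarith) hY0
    have t2 : ε ≤ (25 * K + 2 * d * F) * ε := by
      have : 1 * ε ≤ (25 * K + 2 * d * F) * ε := mul_le_mul_of_nonneg_right (by linarith) hε.le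
      linarith
    have t3 : K * X ≤ (25 * K + 2 * d * F) * X := mul_le_mul_of_nonneg_right (by linarith) hX0
    calc 51 / 50 * (d * F) * Y + (ε + K * X) ≤ (25 * K + 2 * d * F) * Y +
        ((25 * K + 2 * d * F) * ε + (25 * K + 2 * d * F) * X) := by linarith
      _ = _ := by ring

end Pool.Agent.LE.IR.H6
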